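import Pool.Agent.H132.FAvoid

set_option autoImplicit false

open Finset

namespace Pool.Agent.Results.MP_2a6b7d_co.ProximityFAvoiding

variable {α : Type*} [DecidableEq α] {Γ : Type*} [AddCommGroup Γ]

/-- A closest `F`-avoiding base is within distance `|F|`. -/
theorem closest (M : Matroid α) (ψ : α → Γ) (F : Finset Γ) (B Bs : Finset α)
    (hB : M.IsBase (↑B : Set α)) (hBs : M.IsBase (↑Bs : Set α)) (hav : ∑ e ∈ Bs, ψ e ∉ F)
    (hmin : ∀ B' : Finset α, M.IsBase (↑B' : Set α) → (B \ B').card < (B \ Bs).card →
      ∑ e ∈ B', ψ e ∈ F) :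
    (B \ Bs).card ≤ F.card := by
  classical
  set K : Finset α := B ∩ Bs with hK
  set P : Finset α := B \ Bs with hP
  set Q : Finset α := Bs \ B with hQ
  have hKP : Disjoint K P := by
    rw [disjoint_left]; intro x hx hx2
    rw [hK, mem_inter] at hx; rw [hP, mem_sdiff] at hx2
    exact hx2.2 hx.2
  have hKQ : Disjoint K Q := by
    rw [disjoint_left]; intro x hx hx2
    rw [hK, mem_inter] at hx; rw [hQ, mem_sdiff] at hx2
    exact hx2.2 hx.1
  have hPQ : Disjoint P Q := by
    rw [disjoint_left]; intro x hx hx2
    rw [hP, mem_sdiff] at hx; rw [hQ, mem_sdiff] at hx2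
    exact hx2.2 hx.1
  have hKE : Disjoint K (P ∪ Q) := disjoint_union_right.mpr ⟨hKP, hKQ⟩
  have hKQB : K ∪ Q = Bs := by
    ext x; simp only [hK, hQ, mem_union, mem_inter, mem_sdiff]; tauto
  -- other bases inside `P ∪ Q` are forbidden
  have hforb : ∀ X : Finset α, X ⊆ P ∪ Q → M.IsBase (↑(K ∪ X) : Set α) → X ≠ Q →
      ∑ e ∈ K, ψ e + ∑ e ∈ X, ψ e ∈ F := by
    intro X hX hXB hne
    have hdis : Disjoint K X := disjoint_of_subset_right hX hKE
    rw [← sum_union hdis]
    apply hmin _ hXB
    apply card_lt_card
    rw [ssubset_iff_of_subset]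
    · by_contra hcon
      push Not at hcon
      apply hne
      have h1 : X ⊆ Q := by
        intro x hx
        have := hX hx
        rw [mem_union] at this
        rcases this with h | h
        · have h2 := hcon x h
          rw [mem_sdiff, mem_union] at h2
          exact absurd (Or.inr hx) h2.2
        · exact h
      have h2 : (↑(K ∪ X) : Set α) = ↑Bs := by
        refine hXB.eq_of_subset_isBase hBs ?_
        rw [← hKQB]
        exact_mod_cast union_subset_union_right h1
      have h3 : K ∪ X = Bs := by exact_mod_cast h2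
      refine subset_antisymm h1 ?_
      intro x hx
      have h4 : x ∈ K ∪ X := by
        rw [h3, ← hKQB]; exact mem_union_right _ hx
      rcases mem_union.mp h4 with h | h
      · exact absurd hx (disjoint_left.mp hKQ h)
      · exact h
    · intro x hx
      rw [mem_sdiff, mem_union, not_or] at hx
      rw [hP, mem_sdiff]
      refine ⟨hx.1, fun h => hx.2.1 ?_⟩
      rw [hK, mem_inter]; exact ⟨hx.1, h⟩
  have huniq : ∀ X : Finset α, X ⊆ P ∪ Q → M.IsBase (↑(K ∪ X) : Set α) →
      ∑ x ∈ X, ψ x = ∑ x ∈ Q, ψ x → X = Q := by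
    intro X hX hXB hs
    by_contra hne
    have h1 := hforb X hX hXB hne
    rw [hs, ← sum_union hKQ, hKQB] at h1
    exact hav h1
  have hcls : ∀ g, M.Indep (↑(K ∪ (P ∪ Q).filter (fun e => ψ e = g)) : Set α) := by
    intro g
    have hI : M.Indep (↑(K ∪ P.filter (fun e => ψ e = g)) : Set α) := by
      refine hB.indep.subset ?_
      intro x hx
      rw [mem_coe, mem_union, mem_filter] at hx
      rw [mem_coe]
      rcases hx with h | h
      · rw [hK, mem_inter] at h; exact h.1
      · have := h.1; rw [hP, mem_sdiff] at this; exact this.1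
    have hJ : M.Indep (↑(K ∪ Q.filter (fun e => ψ e = g)) : Set α) := by
      refine hBs.indep.subset ?_
      intro x hx
      rw [mem_coe, mem_union, mem_filter] at hx
      rw [mem_coe]
      rcases hx with h | h
      · rw [hK, mem_inter] at h; exact h.2
      · have := h.1; rw [hQ, mem_sdiff] at this; exact this.1
    have hun : (↑(K ∪ (P ∪ Q).filter (fun e => ψ e = g)) : Set α) =
        ↑(K ∪ P.filter (fun e => ψ e = g)) ∪ ↑(K ∪ Q.filter (fun e => ψ e = g)) := by
      ext x
      simp only [mem_coe, Set.mem_union, mem_union, mem_filter]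
      tauto
    rw [hun, hI.union_indep_iff_forall_notMem_closure_right hJ]
    rintro e ⟨heJ, heI⟩ hcl
    have heQ : e ∈ Q ∧ ψ e = g := by
      rw [mem_coe, mem_union, mem_filter] at heJ
      rw [mem_coe, mem_union, mem_filter, not_or] at heI
      rcases heJ with h | h
      · exact absurd h heI.1
      · exact h
    have heB : e ∈ Bs := by
      have := heQ.1; rw [hQ, mem_sdiff] at this; exact this.1
    have hcl2 : e ∈ M.closure ((↑Bs : Set α) \ {e}) := by
      refine M.closure_subset_closure_of_subset_closure ?_ hcl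
      have hbsE : ((↑Bs : Set α) \ {e}) ⊆ M.E := Set.sdiff_subset.trans hBs.subset_ground
      have hKsub : ∀ x ∈ K, x ∈ M.closure ((↑Bs : Set α) \ {e}) := by
        intro x hx
        refine M.mem_closure_of_mem ?_ hbsE
        have h2 := hx
        rw [hK, mem_inter] at h2
        refine ⟨mem_coe.mpr h2.2, ?_⟩
        rw [Set.mem_singleton_iff]
        rintro rfl
        exact (disjoint_left.mp hKQ hx) heQ.1
      rintro x (hx | hx)
      · rw [mem_coe, mem_union, mem_filter] at hx
        rcases hx with h | ⟨hxP, hxg⟩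
        · exact hKsub x h
        · by_contra hc
          have hxE : x ∈ M.E := by
            rw [hP, mem_sdiff] at hxP
            exact hB.subset_ground (mem_coe.mpr hxP.1)
          have h1 := hBs.exchange_base_of_notMem_closure (mem_coe.mpr heB) hc hxE
          have hxQ : x ∉ Q := disjoint_left.mp hPQ hxP
          have h2 : (insert x ((↑Bs : Set α) \ {e})) = ↑(K ∪ insert x (Q.erase e)) := by
            ext y
            simp only [Set.mem_insert_iff, Set.mem_sdiff, mem_coe, Set.mem_singleton_iff,
              mem_union, mem_insert, mem_erase]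
            constructor
            · rintro (h | ⟨h, h3⟩)
              · exact Or.inr (Or.inl h)
              · rw [← hKQB, mem_union] at h
                rcases h with h | h
                · exact Or.inl h
                · exact Or.inr (Or.inr ⟨h3, h⟩)
            · rintro (h | h | ⟨h, h3⟩)
              · right
                refine ⟨?_, ?_⟩
                · rw [← hKQB]; exact mem_union_left _ h
                · rintro rfl
                  exact (disjoint_left.mp hKQ h) heQ.1
              · exact Or.inl h
              · right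
                refine ⟨?_, h⟩
                rw [← hKQB]; exact mem_union_right _ h3
          rw [h2] at h1
          have h3 : insert x (Q.erase e) = Q := by
            apply huniq _ _ h1
            · rw [sum_insert (fun h => hxQ (mem_of_mem_erase h)), hxg, ← heQ.2,
                add_sum_erase _ _ heQ.1]
            · intro y hy
              rw [mem_insert, mem_erase] at hy
              rcases hy with rfl | h
              · exact mem_union_left _ hxP
              · exact mem_union_right _ h.2
          exact hxQ (h3 ▸ mem_insert_self x _)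
      · obtain ⟨hx1, hx2⟩ := hx
        refine M.mem_closure_of_mem ?_ hbsE
        refine ⟨?_, hx2⟩
        rw [mem_coe, mem_union, mem_filter] at hx1
        rw [mem_coe, ← hKQB, mem_union]
        rcases hx1 with h | h
        · exact Or.inl h
        · exact Or.inr h.1
    exact hBs.indep.notMem_closure_sdiff_of_mem (mem_coe.mpr heB) hcl2
  obtain ⟨S, hS1, hS2, hS3⟩ := Pool.Agent.H132.FAvoid.main_T M ψ Q.card K Q (P ∪ Q) (P ∪ Q) rfl
    hKE subset_union_right (Subset.refl _) (by rw [hKQB]; exact hBs) huniq hcls
  have hSsub : S ⊆ insert (∑ e ∈ Q, ψ e) (F.image (fun f => f - ∑ e ∈ K, ψ e)) := by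
    intro g hg
    obtain ⟨X, hX1, hX2, hX3⟩ := hS1 g hg
    rw [mem_insert, mem_image]
    by_cases hXQ : X = Q
    · left; rw [← hX3, hXQ]
    · right
      refine ⟨_, hforb X hX1 hX2 hXQ, ?_⟩
      rw [hX3, add_sub_cancel_left]
  have h1 := card_le_card hSsub
  have h2 := card_insert_le (∑ e ∈ Q, ψ e) (F.image (fun f => f - ∑ e ∈ K, ψ e))
  have h3 : (F.image (fun f => f - ∑ e ∈ K, ψ e)).card ≤ F.card := card_image_le
  rw [card_union_of_disjoint hPQ] at hS3
  omega

/-- **The proximity conjecture for `F`-avoiding bases of group-labelled matroids.**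
Let `M` be a matroid of finite rank (in particular any finite matroid) with a labelling `ψ` of its
elements by an abelian group, and `F` a finite set of forbidden labels. If `M` has an `F`-avoiding
base, then from every base `B` one reaches an `F`-avoiding base `B'` with `|B \ B'| ≤ |F|`. -/
theorem result {α : Type*} [DecidableEq α] (M : Matroid α) {Γ : Type*} [AddCommGroup Γ]
    (ψ : α → Γ) (F : Finset Γ)
    (hF : ∃ B₀ : Finset α, M.IsBase (↑B₀ : Set α) ∧ ∑ e ∈ B₀, ψ e ∉ F)
    (B : Finset α) (hB : M.IsBase (↑B : Set α)) :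
    ∃ B' : Finset α, M.IsBase (↑B' : Set α) ∧ ∑ e ∈ B', ψ e ∉ F ∧ (B \ B').card ≤ F.card := by
  classical
  have hp : ∃ n : ℕ, ∃ Bs : Finset α, M.IsBase (↑Bs : Set α) ∧ ∑ e ∈ Bs, ψ e ∉ F ∧
      (B \ Bs).card = n := by
    obtain ⟨B₀, h1, h2⟩ := hF
    exact ⟨_, B₀, h1, h2, rfl⟩
  obtain ⟨Bs, h1, h2, h3⟩ := Nat.find_spec hp
  refine ⟨Bs, h1, h2, closest M ψ F B Bs hB h1 h2 ?_⟩
  intro B' hB' hlt
  by_contra hc
  rw [h3] at hlt
  exact Nat.find_min hp hlt ⟨B', hB', hc, rfl⟩

end Pool.Agent.Results.MP_2a6b7d_co.ProximityFAvoiding
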